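import Pool.Agent.H17.L.R_seed8.W565.MOFS

/-!
# An inequality of Erdős–Turán type
-/

set_option autoImplicit false

namespace Pool.Agent.R485.Trans

open Finset Filter Topology
open Pool.Agent.H469R2.NK (e norm_e e_add e_zero conj_e)
open Pool.Agent.W565.MOFS (P2 diff_bound saw_upper saw_lower)

/-- an Erdos-Turan type inequality for the sawtooth function -/
theorem saw_bound {ι : Type} (S : Finset ι) (x : ι → ℝ) (K : ℕ) (hK : 1 ≤ K) (δ : ℝ) (hδ0 : 0 < δ)
    (hδ1 : δ ≤ 1) :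
    |∑ n ∈ S, (Int.fract (x n) - 1 / 2)| ≤
      ∑ h ∈ Icc 1 K, ‖∑ n ∈ S, e (h * x n)‖ / h + S.card / (K * δ) + S.card * δ := by
  have hK0 : (0 : ℝ) < K := by exact_mod_cast hK
  set D : ℝ := 1 / Real.pi ^ 2 * (∑ h ∈ Icc 1 K, 2 * Real.pi * δ / h *
    ‖∑ n ∈ S, e (h * x n)‖ + 2 * S.card / K) with hD
  have hu : |∑ n ∈ S, (P2 (Int.fract (x n + δ)) - P2 (Int.fract (x n)))| ≤ D := by
    have := diff_bound S x δ K hK
    rwa [abs_of_pos hδ0] at this
  have hl : |∑ n ∈ S, (P2 (Int.fract (x n + -δ)) - P2 (Int.fract (x n)))| ≤ D := by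
    have := diff_bound S x (-δ) K hK
    rwa [abs_neg, abs_of_pos hδ0] at this
  have h1 : ∑ n ∈ S, (Int.fract (x n) - 1 / 2) ≤ D / (2 * δ) + S.card * (δ / 2) := by
    have h2 : ∑ n ∈ S, (Int.fract (x n) - 1 / 2) ≤
        ∑ n ∈ S, ((P2 (Int.fract (x n)) - P2 (Int.fract (x n - δ))) / (2 * δ) + δ / 2) :=
      sum_le_sum fun n _ => saw_upper (x n) δ hδ0 hδ1
    rw [sum_add_distrib, ← sum_div, sum_const, nsmul_eq_mul] at h2
    have h3 : ∑ n ∈ S, (P2 (Int.fract (x n)) - P2 (Int.fract (x n - δ))) ≤ D := by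
      have h4 := (abs_le.1 hl).1
      have h5 : ∑ n ∈ S, (P2 (Int.fract (x n)) - P2 (Int.fract (x n - δ))) =
          -∑ n ∈ S, (P2 (Int.fract (x n + -δ)) - P2 (Int.fract (x n))) := by
        rw [← sum_neg_distrib]
        refine sum_congr rfl fun n _ => ?_
        rw [sub_eq_add_neg (x n) δ]; ring
      rw [h5]; linarith
    have h6 : (∑ n ∈ S, (P2 (Int.fract (x n)) - P2 (Int.fract (x n - δ)))) / (2 * δ) ≤
        D / (2 * δ) := by gcongr
    linarith
  have h2 : -(D / (2 * δ) + S.card * (δ / 2)) ≤ ∑ n ∈ S, (Int.fract (x n) - 1 / 2) := by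
    have h2 : ∑ n ∈ S, ((P2 (Int.fract (x n + δ)) - P2 (Int.fract (x n))) / (2 * δ) - δ / 2) ≤
        ∑ n ∈ S, (Int.fract (x n) - 1 / 2) :=
      sum_le_sum fun n _ => saw_lower (x n) δ hδ0 hδ1
    rw [sum_sub_distrib, ← sum_div, sum_const, nsmul_eq_mul] at h2
    have h6 : -D / (2 * δ) ≤
        (∑ n ∈ S, (P2 (Int.fract (x n + δ)) - P2 (Int.fract (x n)))) / (2 * δ) := by
      have := (abs_le.1 hu).1
      gcongr
    have h7 : -D / (2 * δ) = -(D / (2 * δ)) := neg_div _ _
    linarith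
  have h3 : D / (2 * δ) ≤ ∑ h ∈ Icc 1 K, ‖∑ n ∈ S, e (h * x n)‖ / h + S.card / (K * δ) := by
    have hpi : 3 < Real.pi := Real.pi_gt_three
    have e1 : D / (2 * δ) = 1 / Real.pi * ∑ h ∈ Icc 1 K, ‖∑ n ∈ S, e (h * x n)‖ / h +
        1 / Real.pi ^ 2 * (S.card / (K * δ)) := by
      rw [hD, mul_add, add_div]
      congr 1
      · rw [mul_sum, sum_div, mul_sum]
        refine sum_congr rfl fun h hh => ?_
        have : (h : ℝ) ≠ 0 := by
          have := (mem_Icc.1 hh).1
          positivity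
        field_simp
      · field_simp
    rw [e1]
    have e2 : 1 / Real.pi ≤ 1 := by rw [div_le_one (by positivity)]; linarith
    have e3 : 1 / Real.pi ^ 2 ≤ 1 := by rw [div_le_one (by positivity)]; nlinarith
    have e4 : 0 ≤ ∑ h ∈ Icc 1 K, ‖∑ n ∈ S, e (h * x n)‖ / h :=
      sum_nonneg fun h _ => by positivity
    have e5 : 0 ≤ (S.card : ℝ) / (K * δ) := by positivity
    nlinarith
  have h4 : (S.card : ℝ) * (δ / 2) ≤ S.card * δ :=
    mul_le_mul_of_nonneg_left (by linarith) (Nat.cast_nonneg _)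
  rw [abs_le]
  constructor <;> linarith

lemma indicator_eq (t α β : ℝ) (h0 : 0 ≤ α) (h1 : α < β) (h2 : β ≤ 1) :
    (if α ≤ Int.fract t ∧ Int.fract t < β then (1 : ℝ) else 0) - (β - α) =
      (Int.fract (t - β) - 1 / 2) - (Int.fract (t - α) - 1 / 2) := by
  have hu0 := Int.fract_nonneg t
  have hu1 := Int.fract_lt_one t
  set u := Int.fract t with hu
  have ht : t = u + (⌊t⌋ : ℤ) := (Int.fract_add_floor t).symm
  have e1 : Int.fract (t - β) = if u < β then u - β + 1 else u - β := by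
    have : t - β = (u - β) + (⌊t⌋ : ℤ) := by linarith
    rw [this, Int.fract_add_intCast]
    split_ifs with h
    · have : u - β = (u - β + 1) + ((-1 : ℤ) : ℝ) := by push_cast; ring
      rw [this, Int.fract_add_intCast, Int.fract_eq_self.2 ⟨by linarith, by linarith⟩]
      push_cast; ring
    · exact Int.fract_eq_self.2 ⟨by linarith, by linarith⟩
  have e2 : Int.fract (t - α) = if u < α then u - α + 1 else u - α := by
    have : t - α = (u - α) + (⌊t⌋ : ℤ) := by linarith
    rw [this, Int.fract_add_intCast]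
    split_ifs with h
    · have : u - α = (u - α + 1) + ((-1 : ℤ) : ℝ) := by push_cast; ring
      rw [this, Int.fract_add_intCast, Int.fract_eq_self.2 ⟨by linarith, by linarith⟩]
      push_cast; ring
    · exact Int.fract_eq_self.2 ⟨by linarith, by linarith⟩
  rw [e1, e2]
  by_cases ha : u < α
  · rw [if_neg (by intro h; linarith [h.1]), if_pos (by linarith), if_pos ha]
    ring
  · by_cases hb : u < β
    · rw [if_pos ⟨by linarith, hb⟩, if_pos hb, if_neg ha]
      ring
    · rw [if_neg (by intro h; exact hb h.2), if_neg hb, if_neg ha]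
      ring

end Pool.Agent.R485.Trans
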